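import Mathlib
import Pool.Agent.helper99.MB.Amb

set_option autoImplicit false

/-!
# Module D: metric properties of the ambient group
-/

namespace Pool.Agent.helper41.MB

open Pool.Agent.helper99.LC Pool.Agent.helper99.MB Filter

variable {W Γ : Type} [Group W] [Group Γ] (X : Amb W Γ)

theorem closure_S : Subgroup.closure X.S = ⊤ := by
  rw [eq_top_iff, ← X.gen, Subgroup.closure_le]
  rintro y (⟨w, rfl⟩ | hy)
  · have h1 : (⊤ : Subgroup W).map X.F.ι ≤ Subgroup.closure X.S := by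
      rw [← X.B.gen, MonoidHom.map_closure, Subgroup.closure_le]
      rintro _ ⟨v, hv, rfl⟩
      refine Subgroup.subset_closure ?_
      simp only [Set.mem_insert_iff, Set.mem_singleton_iff] at hv
      rcases hv with rfl | rfl | rfl
      · exact Or.inl rfl
      · exact Or.inr (Or.inl rfl)
      · exact Or.inr (Or.inr (Or.inl rfl))
    exact h1 ⟨w, Subgroup.mem_top _, rfl⟩
  · rw [Set.mem_singleton_iff] at hy
    subst hy
    exact Subgroup.subset_closure (Or.inr (Or.inr (Or.inr rfl)))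

lemma H_eq : X.H = Subgroup.closure ({X.F.ι X.B.a, X.F.ι X.B.b, X.F.c} : Set Γ) := by
  apply le_antisymm
  · rw [Amb.H, FProd.P, Subgroup.closure_le]
    have ha : X.F.ι X.B.a ∈ Subgroup.closure ({X.F.ι X.B.a, X.F.ι X.B.b, X.F.c} : Set Γ) :=
      Subgroup.subset_closure (Or.inl rfl)
    have hb : X.F.ι X.B.b ∈ Subgroup.closure ({X.F.ι X.B.a, X.F.ι X.B.b, X.F.c} : Set Γ) :=
      Subgroup.subset_closure (Or.inr (Or.inl rfl))
    rintro y (⟨q, hq, rfl⟩ | hy)
    · rw [X.B.q_eq q hq, map_mul, map_zpow, map_zpow]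
      exact Subgroup.mul_mem _ (Subgroup.zpow_mem _ ha _) (Subgroup.zpow_mem _ hb _)
    · rw [Set.mem_singleton_iff] at hy
      subst hy
      exact Subgroup.subset_closure (Or.inr (Or.inr rfl))
  · rw [Subgroup.closure_le]
    intro y hy
    simp only [Set.mem_insert_iff, Set.mem_singleton_iff] at hy
    rcases hy with rfl | rfl | rfl
    · exact X.a_mem
    · exact X.b_mem
    · exact X.c_mem

theorem closure_T : Subgroup.closure X.T = ⊤ := by
  have h1 : (Subgroup.closure X.T).map X.H.subtype = (⊤ : Subgroup X.H).map X.H.subtype := by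
    rw [MonoidHom.map_closure]
    have e1 : X.H.subtype '' X.T = {X.F.ι X.B.a, X.F.ι X.B.b, X.F.c} := by
      rw [Amb.T, Set.image_insert_eq, Set.image_insert_eq, Set.image_singleton]
      rfl
    rw [e1, ← H_eq, ← MonoidHom.range_eq_map, Subgroup.range_subtype]
  exact Subgroup.map_injective X.H.subtype_injective h1

lemma r_mem (g : Γ) : X.r g ∈ X.H := by
  have h1 : (⊤ : Subgroup Γ).map X.r ≤ X.H := by
    rw [← X.gen, MonoidHom.map_closure, Subgroup.closure_le]
    rintro _ ⟨y, (⟨w, rfl⟩ | hy), rfl⟩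
    · change X.r (X.F.ι w) ∈ X.H
      rw [X.r_ι]
      exact X.F.ι_mem_P (X.B.ρ_mem w)
    · rw [Set.mem_singleton_iff] at hy
      subst hy
      change X.r X.F.c ∈ X.H
      rw [X.r_c]
      exact X.c_mem
  exact h1 ⟨g, Subgroup.mem_top _, rfl⟩

lemma r_id {g : Γ} (hg : g ∈ X.H) : X.r g = g := by
  rw [H_eq] at hg
  induction hg using Subgroup.closure_induction with
  | mem y hy =>
    simp only [Set.mem_insert_iff, Set.mem_singleton_iff] at hy
    rcases hy with rfl | rfl | rfl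
    · rw [X.r_ι, X.B.ρ_id _ X.B.ha]
    · rw [X.r_ι, X.B.ρ_id _ X.B.hb]
    · exact X.r_c
  | one => exact map_one _
  | mul y z _ _ hy hz => rw [map_mul, hy, hz]
  | inv y _ hy => rw [map_inv, hy]

/-- the retraction -/
def rH : Γ →* X.H := X.r.codRestrict X.H (r_mem X)

lemma rH_coe (h : X.H) : rH X (h : Γ) = h := Subtype.ext (r_id X h.2)

lemma rH_letter : ∀ s ∈ X.S, Let X.T (rH X s) ∨ rH X s = 1 := by
  intro s hs
  simp only [Amb.S, Set.mem_insert_iff, Set.mem_singleton_iff] at hs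
  rcases hs with rfl | rfl | rfl | rfl
  · exact Or.inl (Or.inl (Or.inl (Subtype.ext (r_id X X.a_mem))))
  · exact Or.inl (Or.inl (Or.inr (Or.inl (Subtype.ext (r_id X X.b_mem)))))
  · right
    refine Subtype.ext ?_
    change X.r (X.F.ι X.B.x) = 1
    rw [X.r_ι, X.B.ρ_x, map_one]
  · exact Or.inl (Or.inl (Or.inr (Or.inr (Subtype.ext (r_id X X.c_mem)))))

lemma wlen_rH (g : Γ) : wlen X.T (rH X g) ≤ wlen X.S g :=
  wlen_map (closure_S X) (closure_T X) (rH X) (rH_letter X) g

lemma wd_rH (g h : Γ) : wd X.T (rH X g) (rH X h) ≤ wd X.S g h := by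
  have := wlen_rH X (g⁻¹ * h)
  rw [map_mul, map_inv] at this
  exact this

theorem d_iso (h k : X.H) : wd X.T h k = wd X.S (h : Γ) (k : Γ) := by
  apply le_antisymm
  · have := wd_rH X (h : Γ) (k : Γ)
    rwa [rH_coe, rH_coe] at this
  · have := wlen_map (closure_T X) (closure_S X) X.H.subtype (fun s hs => ?_) (h⁻¹ * k)
    · rw [map_mul, map_inv] at this
      exact this
    · left
      left
      simp only [Amb.T, Set.mem_insert_iff, Set.mem_singleton_iff] at hs
      rcases hs with rfl | rfl | rfl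
      · exact Or.inl rfl
      · exact Or.inr (Or.inl rfl)
      · exact Or.inr (Or.inr (Or.inr rfl))

lemma geod_letter {n : ℕ} {γ : ℕ → Γ} (hγ : IsGeod X.S n γ) {i : ℕ} (hi : i < n) :
    Let X.S ((γ i)⁻¹ * γ (i + 1)) := by
  refine let_of_wlen (closure_S X) ?_
  have := hγ i (i + 1) (by omega) (by omega)
  rw [wd] at this
  omega

/-- geodesics between points of `H` stay in `H` -/
theorem convex {n : ℕ} {γ : ℕ → Γ} (hγ : IsGeod X.S n γ) (h0 : γ 0 ∈ X.H) (hn : γ n ∈ X.H) :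
    ∀ i ≤ n, γ i ∈ X.H := by
  have hstep : ∀ i < n, (γ i)⁻¹ * γ (i + 1) ∈ X.H := by
    intro i hi
    by_contra hcon
    have hx : rH X ((γ i)⁻¹ * γ (i + 1)) = 1 := by
      have hxx : rH X (X.F.ι X.B.x) = 1 := by
        refine Subtype.ext ?_
        change X.r (X.F.ι X.B.x) = 1
        rw [X.r_ι, X.B.ρ_x, map_one]
      have key : ∀ s ∈ X.S, s ∉ X.H → rH X s = 1 := by
        intro s hs hsH
        simp only [Amb.S, Set.mem_insert_iff, Set.mem_singleton_iff] at hs
        rcases hs with rfl | rfl | rfl | rfl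
        · exact absurd X.a_mem hsH
        · exact absurd X.b_mem hsH
        · exact hxx
        · exact absurd X.c_mem hsH
      rcases geod_letter X hγ hi with h | h
      · exact key _ h hcon
      · have h1 := key _ h (fun h' => hcon ((X.H.inv_mem_iff).1 h'))
        rw [map_inv, inv_eq_one] at h1
        exact h1
    have e1 : rH X (γ (i + 1)) = rH X (γ i) := by
      rw [map_mul, map_inv, inv_mul_eq_one] at hx
      exact hx.symm
    have h1 : wd X.S (γ 0) (γ n) = n := by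
      have := hγ 0 n (by omega) le_rfl
      omega
    have h2 := d_iso X ⟨γ 0, h0⟩ ⟨γ n, hn⟩
    have h3 := wd_tri (closure_T X) ⟨γ 0, h0⟩ (rH X (γ i)) ⟨γ n, hn⟩
    have h4 := wd_rH X (γ 0) (γ i)
    have h5 := wd_rH X (γ (i + 1)) (γ n)
    have e2 : rH X (γ 0) = ⟨γ 0, h0⟩ := rH_coe X ⟨γ 0, h0⟩
    have e3 : rH X (γ n) = ⟨γ n, hn⟩ := rH_coe X ⟨γ n, hn⟩
    have h6 := hγ 0 i (by omega) (by omega)
    have h7 := hγ (i + 1) n (by omega) le_rfl
    rw [e2] at h4
    rw [e3, e1] at h5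
    have h2' : wd X.T ⟨γ 0, h0⟩ ⟨γ n, hn⟩ = wd X.S (γ 0) (γ n) := h2
    omega
  intro i
  induction i with
  | zero => exact fun _ => h0
  | succ i ih =>
    intro hi
    have h1 := ih (by omega)
    have h2 := X.H.mul_mem h1 (hstep i (by omega))
    rwa [mul_inv_cancel_left] at h2

/-! ### planes -/

lemma p1_one : X.p1 1 = 0 := by
  have := X.p1_mul 1 1
  rw [mul_one] at this
  omega

lemma p2_one : X.p2 1 = 0 := by
  have := X.p2_mul 1 1
  rw [mul_one] at this
  omega

lemma p1_inv (g : Γ) : X.p1 g⁻¹ = -X.p1 g := by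
  have := X.p1_mul g⁻¹ g
  rw [inv_mul_cancel, p1_one] at this
  omega

lemma p2_inv (g : Γ) : X.p2 g⁻¹ = -X.p2 g := by
  have := X.p2_mul g⁻¹ g
  rw [inv_mul_cancel, p2_one] at this
  omega

lemma p_letter {s : Γ} (hs : Let X.S s) : (X.p1 s).natAbs + (X.p2 s).natAbs ≤ 1 := by
  have key : ∀ s ∈ X.S, (X.p1 s).natAbs + (X.p2 s).natAbs ≤ 1 := by
    intro s hs
    simp only [Amb.S, Set.mem_insert_iff, Set.mem_singleton_iff] at hs
    rcases hs with rfl | rfl | rfl | rfl
    · rw [X.p1_ι, X.p2_ι, X.B.p1_a, X.B.p2_a]; simp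
    · rw [X.p1_ι, X.p2_ι, X.B.p1_b, X.B.p2_b]; simp
    · rw [X.p1_ι, X.p2_ι, X.B.p1_x, X.B.p2_x]; simp
    · rw [X.p1_c, X.p2_c]; simp
  rcases hs with h | h
  · exact key _ h
  · have := key _ h
    rwa [p1_inv, p2_inv, Int.natAbs_neg, Int.natAbs_neg] at this

lemma p_le_wlen (g : Γ) : (X.p1 g).natAbs + (X.p2 g).natAbs ≤ wlen X.S g := by
  obtain ⟨l, h1, h2, h3⟩ := wlen_spec (closure_S X) g
  rw [← h1, ← h3]
  clear h1 h3
  induction l with
  | nil => rw [List.prod_nil, p1_one, p2_one]; simp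
  | cons s l ih =>
    rw [List.prod_cons, X.p1_mul, X.p2_mul, List.length_cons]
    have h4 := ih fun x hx => h2 x (by simp [hx])
    have h5 := p_letter X (h2 s (by simp))
    omega

lemma wlen_zpow_le {s : Γ} (hs : Let X.S s) (n : ℤ) : wlen X.S (s ^ n) ≤ n.natAbs := by
  have key : ∀ n : ℕ, wlen X.S (s ^ n) ≤ n := by
    intro n
    induction n with
    | zero => rw [pow_zero, wlen_one]
    | succ n ih =>
      rw [pow_succ]
      have h1 := wlen_mul_le (closure_S X) (s ^ n) s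
      have h2 := wlen_let hs
      omega
  obtain ⟨m, rfl | rfl⟩ := Int.eq_nat_or_neg n
  · rw [zpow_natCast, Int.natAbs_natCast]
    exact key m
  · rw [zpow_neg, zpow_natCast, wlen_inv (closure_S X), Int.natAbs_neg, Int.natAbs_natCast]
    exact key m

lemma B_comm_zpow (i j : ℤ) : X.B.a ^ i * X.B.b ^ j = X.B.b ^ j * X.B.a ^ i :=
  ((show Commute X.B.a X.B.b from X.B.comm).zpow_zpow i j).eq

lemma p1_zpow (g : Γ) (n : ℤ) : X.p1 (g ^ n) = n * X.p1 g := by
  have key : ∀ n : ℕ, X.p1 (g ^ n) = n * X.p1 g := by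
    intro n
    induction n with
    | zero => rw [pow_zero, p1_one]; simp
    | succ n ih => rw [pow_succ, X.p1_mul, ih]; push_cast; ring
  obtain ⟨m, rfl | rfl⟩ := Int.eq_nat_or_neg n
  · rw [zpow_natCast, key]
  · rw [zpow_neg, zpow_natCast, p1_inv, key]; ring

lemma p2_zpow (g : Γ) (n : ℤ) : X.p2 (g ^ n) = n * X.p2 g := by
  have key : ∀ n : ℕ, X.p2 (g ^ n) = n * X.p2 g := by
    intro n
    induction n with
    | zero => rw [pow_zero, p2_one]; simp
    | succ n ih => rw [pow_succ, X.p2_mul, ih]; push_cast; ring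
  obtain ⟨m, rfl | rfl⟩ := Int.eq_nat_or_neg n
  · rw [zpow_natCast, key]
  · rw [zpow_neg, zpow_natCast, p2_inv, key]; ring

lemma wlen_plane (m n : ℤ) : wlen X.S (X.F.ι (X.B.a ^ m * X.B.b ^ n)) = m.natAbs + n.natAbs := by
  rw [map_mul, map_zpow, map_zpow]
  apply le_antisymm
  · refine (wlen_mul_le (closure_S X) _ _).trans (add_le_add ?_ ?_)
    · exact wlen_zpow_le X (Or.inl (Or.inl rfl)) m
    · exact wlen_zpow_le X (Or.inl (Or.inr (Or.inl rfl))) n
  · have h1 := p_le_wlen X (X.F.ι X.B.a ^ m * X.F.ι X.B.b ^ n)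
    rw [X.p1_mul, X.p2_mul, p1_zpow, p1_zpow, p2_zpow, p2_zpow, X.p1_ι, X.p1_ι, X.p2_ι, X.p2_ι,
      X.B.p1_a, X.B.p1_b, X.B.p2_a, X.B.p2_b] at h1
    simpa using h1

theorem plane_dist (g : Γ) (i j i' j' : ℤ) :
    wd X.S (g * X.F.ι (X.B.a ^ i * X.B.b ^ j)) (g * X.F.ι (X.B.a ^ i' * X.B.b ^ j')) =
      (i - i').natAbs + (j - j').natAbs := by
  rw [wd_left, wd, ← map_inv, ← map_mul]
  have e1 : (X.B.a ^ i * X.B.b ^ j)⁻¹ * (X.B.a ^ i' * X.B.b ^ j') =
      X.B.a ^ (i' - i) * X.B.b ^ (j' - j) := by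
    rw [mul_inv_rev, ← zpow_neg, ← zpow_neg]
    calc X.B.b ^ (-j) * X.B.a ^ (-i) * (X.B.a ^ i' * X.B.b ^ j')
        = X.B.b ^ (-j) * (X.B.a ^ (-i) * X.B.a ^ i') * X.B.b ^ j' := by group
      _ = X.B.b ^ (-j) * X.B.a ^ (i' - i) * X.B.b ^ j' := by
          rw [← zpow_add, neg_add_eq_sub]
      _ = X.B.a ^ (i' - i) * X.B.b ^ (-j) * X.B.b ^ j' := by rw [B_comm_zpow]
      _ = X.B.a ^ (i' - i) * X.B.b ^ (j' - j) := by
          rw [mul_assoc, ← zpow_add, neg_add_eq_sub]
  rw [e1, wlen_plane]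
  omega

/-! ### bridges -/

/-- bridges: the edge `(g, g c)` separates `Γ` -/
theorem bridge (g y z : Γ) (hy : X.F.a0 (g⁻¹ * y) ≤ 0) (hz : 1 ≤ X.F.a0 (g⁻¹ * z)) :
    wd X.S y z = wd X.S y g + 1 + wd X.S (g * X.F.c) z := by
  apply le_antisymm
  · have h1 := wd_tri (closure_S X) y g z
    have h2 := wd_tri (closure_S X) g (g * X.F.c) z
    have h3 := wd_let (S := X.S) g (x := X.F.c) (Or.inl (Or.inr (Or.inr (Or.inr rfl))))
    omega
  · obtain ⟨γ, h0, hn, hγ⟩ := exists_geod (closure_S X) y z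
    set n := wd X.S y z with hn'
    -- the switch
    obtain ⟨i, hi, h1, h2⟩ : ∃ i < n, X.F.a0 (g⁻¹ * γ i) ≤ 0 ∧ 1 ≤ X.F.a0 (g⁻¹ * γ (i + 1)) := by
      by_contra hcon
      push Not at hcon
      have h3 : ∀ i ≤ n, X.F.a0 (g⁻¹ * γ i) ≤ 0 := by
        intro i
        induction i with
        | zero => intro _; rw [h0]; exact hy
        | succ i ih =>
          intro hi
          have := hcon i (by omega) (ih (by omega))
          omega
      have h4 := h3 n le_rfl
      rw [hn] at h4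
      omega
    -- the letter
    have hlet := geod_letter X hγ hi
    set u := g⁻¹ * γ i with hu
    set s := (γ i)⁻¹ * γ (i + 1) with hs
    have hus : g⁻¹ * γ (i + 1) = u * s := by
      rw [hu, hs]; group
    rw [hus] at h2
    have hw : ∀ w, s ≠ X.F.ι w := by
      intro w hw
      rw [hw, (X.F.right_ι w u).1] at h2
      omega
    have hc : ∃ b : ℤ, (b = 1 ∨ b = -1) ∧ s = X.F.c ^ b := by
      have key : ∀ t ∈ X.S, (∃ w, t = X.F.ι w) ∨ t = X.F.c := by
        intro t ht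
        simp only [Amb.S, Set.mem_insert_iff, Set.mem_singleton_iff] at ht
        rcases ht with rfl | rfl | rfl | rfl
        · exact Or.inl ⟨_, rfl⟩
        · exact Or.inl ⟨_, rfl⟩
        · exact Or.inl ⟨_, rfl⟩
        · exact Or.inr rfl
      rcases hlet with h | h
      · rcases key _ h with ⟨w, h⟩ | h
        · exact absurd h (hw w)
        · exact ⟨1, Or.inl rfl, by rw [h, zpow_one]⟩
      · rcases key _ h with ⟨w, h⟩ | h
        · refine absurd ?_ (hw w⁻¹)
          rw [map_inv, ← h, inv_inv]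
        · exact ⟨-1, Or.inr rfl, by rw [zpow_neg_one, ← h, inv_inv]⟩
    obtain ⟨b, hb, hsb⟩ := hc
    have hua : ∃ a : ℤ, u = X.F.c ^ a := by
      by_contra hcon
      rw [hsb, (X.F.right_c b u).2 hcon] at h2
      omega
    obtain ⟨a, ha⟩ := hua
    rw [ha, hsb, ← zpow_add, X.F.a0_c] at h2
    rw [ha, X.F.a0_c] at h1
    have ha0 : a = 0 := by omega
    have hb1 : b = 1 := by omega
    have e1 : γ i = g := by
      rw [ha0, zpow_zero] at ha
      rw [hu, inv_mul_eq_one] at ha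
      exact ha.symm
    have e2 : γ (i + 1) = g * X.F.c := by
      rw [hb1, zpow_one] at hsb
      rw [← hsb, hs, e1]
      group
    have h5 := hγ 0 i (by omega) (by omega)
    have h6 := hγ (i + 1) n (by omega) le_rfl
    rw [h0, e1] at h5
    rw [e2, hn] at h6
    omega

end Pool.Agent.helper41.MB
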